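import Mathlib

/-!
# Cutting distance of even k-ary words to shuffle squares (MP_df1ab4_co, Q1, disproof)

For every `k ≥ 5` the cutting distance is unbounded on even `k`-ary words; in particular some even
`k`-ary word `W` has `c(W) ≥ k + 1`.  The proof is by counting.
-/

namespace Pool.Agent.Results.MP_df1ab4_co.CuttingUnbounded

/-- The subword of `W` supported on the positions at which the mask `m` is `true`. -/
def sub {A : Type*} (m : List Bool) (W : List A) : List A :=
  ((W.zip m).filter (fun p => p.2)).map Prod.fst

/-- `W` is a shuffle square: its positions split into the supports of two equal subwords. -/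
def IsShuffleSquare {A : Type*} (W : List A) : Prop :=
  ∃ m : List Bool, m.length = W.length ∧ sub m W = sub (m.map not) W

/-- `W` is even: every letter occurs in `W` an even number of times. -/
def IsEven {A : Type*} [DecidableEq A] (W : List A) : Prop := ∀ a, Even (W.count a)

/-- `W` can be cut by `c` cuts into consecutive blocks which, suitably reordered, form a
shuffle square. -/
def Cuttable {A : Type*} (W : List A) (c : ℕ) : Prop :=
  ∃ B B' : List (List A), B.length = c + 1 ∧ B.flatten = W ∧ B'.Perm B ∧
    IsShuffleSquare B'.flatten

/-- The cutting distance `c(W)`. -/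
noncomputable def cutDist {A : Type*} (W : List A) : ℕ := sInf {c | Cuttable W c}

/-! ### Basic facts -/

section basic

variable {A : Type*}

@[simp] theorem sub_nil_left (W : List A) : sub [] W = [] := by simp [sub]

@[simp] theorem sub_nil_right (m : List Bool) : sub m ([] : List A) = [] := by simp [sub]

theorem sub_cons_true (m : List Bool) (a : A) (W : List A) :
    sub (true :: m) (a :: W) = a :: sub m W := by simp [sub]

theorem sub_cons_false (m : List Bool) (a : A) (W : List A) :
    sub (false :: m) (a :: W) = sub m W := by simp [sub]

theorem sub_length (m : List Bool) (W : List A) (h : m.length = W.length) :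
    (sub m W).length + (sub (m.map not) W).length = W.length := by
  induction m generalizing W with
  | nil =>
    have : W = [] := by
      apply List.length_eq_zero_iff.mp
      simpa using h.symm
    simp [this]
  | cons b m ih =>
    cases W with
    | nil => simp at h
    | cons a W =>
      have h' : m.length = W.length := by simpa using h
      have := ih W h'
      cases b
      · rw [List.map_cons, Bool.not_false, sub_cons_false, sub_cons_true, List.length_cons,
          List.length_cons]
        omega
      · rw [List.map_cons, Bool.not_true, sub_cons_false, sub_cons_true, List.length_cons,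
          List.length_cons]
        omega

theorem sub_inj (m : List Bool) (W W' : List A) (h : m.length = W.length)
    (h' : m.length = W'.length) (h1 : sub m W = sub m W')
    (h2 : sub (m.map not) W = sub (m.map not) W') : W = W' := by
  induction m generalizing W W' with
  | nil =>
    have e1 : W = [] := List.length_eq_zero_iff.mp (by simpa using h.symm)
    have e2 : W' = [] := List.length_eq_zero_iff.mp (by simpa using h'.symm)
    rw [e1, e2]
  | cons b m ih =>
    cases W with
    | nil => simp at h
    | cons a W =>
      cases W' with
      | nil => simp at h'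
      | cons a' W' =>
        have g : m.length = W.length := by simpa using h
        have g' : m.length = W'.length := by simpa using h'
        cases b
        · rw [List.map_cons, Bool.not_false, sub_cons_true, sub_cons_true] at h2
          rw [sub_cons_false, sub_cons_false] at h1
          rw [(List.cons.inj h2).1, ih W W' g g' h1 (List.cons.inj h2).2]
        · rw [List.map_cons, Bool.not_true, sub_cons_false, sub_cons_false] at h2
          rw [sub_cons_true, sub_cons_true] at h1
          rw [(List.cons.inj h1).1, ih W W' g g' (List.cons.inj h1).2 h2]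

theorem sub_append (m m' : List Bool) (W W' : List A) (h : m.length = W.length) :
    sub (m ++ m') (W ++ W') = sub m W ++ sub m' W' := by
  unfold sub
  rw [List.zip_append h.symm, List.filter_append, List.map_append]

theorem sub_replicate_true (W : List A) : sub (List.replicate W.length true) W = W := by
  induction W with
  | nil => simp
  | cons a W ih => rw [List.length_cons, List.replicate_succ, sub_cons_true, ih]

theorem sub_replicate_false (W : List A) : sub (List.replicate W.length false) W = [] := by
  induction W with
  | nil => simp
  | cons a W ih => rw [List.length_cons, List.replicate_succ, sub_cons_false, ih]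

theorem shuffleSquare_double (X : List A) : IsShuffleSquare (X ++ X) := by
  refine ⟨List.replicate X.length true ++ List.replicate X.length false, by simp, ?_⟩
  rw [List.map_append, sub_append _ _ _ _ (by simp), sub_append _ _ _ _ (by simp),
    List.map_replicate, List.map_replicate, Bool.not_true, Bool.not_false, sub_replicate_true,
    sub_replicate_false]
  simp

theorem Cuttable.mono {W : List A} {c d : ℕ} (h : Cuttable W c) (hcd : c ≤ d) :
    Cuttable W d := by
  obtain ⟨B, B', h1, h2, h3, h4⟩ := h
  refine ⟨B ++ List.replicate (d - c) [], B' ++ List.replicate (d - c) [], ?_, ?_,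
    h3.append_right _, ?_⟩
  · rw [List.length_append, List.length_replicate, h1]
    omega
  · simp [h2]
  · simpa using h4

/-- The cutting distance of an even word is well defined. -/
theorem exists_cuttable [Fintype A] [DecidableEq A] {W : List A} (h : IsEven W) :
    ∃ c, Cuttable W c := by
  classical
  let t : Multiset A := ∑ a : A, Multiset.replicate (W.count a / 2) a
  have ht : ∀ a, t.toList.count a = W.count a / 2 := by
    intro a
    rw [← Multiset.coe_count, Multiset.coe_toList]
    simp [t, Multiset.count_sum', Multiset.count_replicate]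
  have hperm : (t.toList ++ t.toList).Perm W := by
    rw [List.perm_iff_count]
    intro a
    rw [List.count_append, ht]
    obtain ⟨r, hr⟩ := h a
    omega
  refine ⟨W.length, W.map (fun a => [a]) ++ [[]],
    (t.toList ++ t.toList).map (fun a => [a]) ++ [[]], by simp, ?_, ?_, ?_⟩
  · rw [List.flatten_append]
    simp [← List.flatMap_def]
  · exact (hperm.map _).append_right _
  · have : ((t.toList ++ t.toList).map (fun a => [a]) ++ [[]]).flatten =
        t.toList ++ t.toList := by
      rw [List.flatten_append]
      simp [← List.flatMap_def]
    rw [this]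
    exact shuffleSquare_double _

theorem cuttable_of_cutDist_le [Fintype A] [DecidableEq A] {W : List A} (h : IsEven W) {C : ℕ}
    (hC : cutDist W ≤ C) : Cuttable W C := by
  have h1 : Cuttable W (cutDist W) := Nat.sInf_mem (exists_cuttable h)
  exact h1.mono hC

theorem splitLengths_self (B : List (List A)) :
    (B.map List.length).splitLengths B.flatten = B := by
  induction B with
  | nil => rfl
  | cons b B ih =>
    rw [List.map_cons, List.flatten_cons, List.splitLengths]
    simp [ih]

end basic

/-! ### Counting -/

section counting

variable {A : Type*} [Fintype A]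

open Classical in
theorem card_SS (n : ℕ) :
    (Finset.univ.filter (fun w : List.Vector A n => IsShuffleSquare w.1)).card ≤
      2 ^ n * Fintype.card A ^ (n / 2) := by
  rw [← Fintype.card_subtype]
  have hlen : ∀ w : {w : List.Vector A n // IsShuffleSquare w.1},
      (sub w.2.choose w.1.1).length = n / 2 := by
    intro w
    have h1 := w.2.choose_spec
    have h2 := sub_length _ _ h1.1
    have h3 : w.1.1.length = n := w.1.2
    have h4 := congrArg List.length h1.2
    omega
  let f : {w : List.Vector A n // IsShuffleSquare w.1} → List.Vector Bool n × List.Vector A (n / 2) :=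
    fun w => (⟨w.2.choose, w.2.choose_spec.1.trans w.1.2⟩, ⟨sub w.2.choose w.1.1, hlen w⟩)
  have hf : Function.Injective f := by
    intro w w' hww
    have e1 : w.2.choose = w'.2.choose := congrArg (fun p => p.1.1) hww
    have e2 : sub w.2.choose w.1.1 = sub w'.2.choose w'.1.1 := congrArg (fun p => p.2.1) hww
    have s1 := w.2.choose_spec
    have s2 := w'.2.choose_spec
    apply Subtype.ext
    apply Subtype.ext
    apply sub_inj w.2.choose w.1.1 w'.1.1 s1.1 (e1 ▸ s2.1)
    · rw [e2, e1]
    · rw [← s1.2, e2, s2.2, e1]
  calc _ ≤ Fintype.card (List.Vector Bool n × List.Vector A (n / 2)) :=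
        Fintype.card_le_of_injective f hf
    _ = _ := by
        rw [Fintype.card_prod, card_vector, card_vector, Fintype.card_bool]

open Classical in
theorem card_cut (n C : ℕ) :
    (Finset.univ.filter (fun w : List.Vector A n => Cuttable w.1 C)).card ≤
      (2 ^ n * Fintype.card A ^ (n / 2)) * (n + 1) ^ (C + 1) * (C + 1).factorial := by
  let T : Finset (List A) :=
    ((Finset.univ.filter (fun w : List.Vector A n => IsShuffleSquare w.1)) ×ˢ
      (Finset.univ : Finset (List.Vector (Fin (n + 1)) (C + 1)))).biUnion
      (fun p => (((p.2.1.map Fin.val).splitLengths p.1.1).permutations.map List.flatten).toFinset)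
  have hT : T.card ≤ (2 ^ n * Fintype.card A ^ (n / 2)) * (n + 1) ^ (C + 1) *
      (C + 1).factorial := by
    refine (Finset.card_biUnion_le_card_mul _ _ (C + 1).factorial ?_).trans ?_
    · intro p _
      refine (List.toFinset_card_le _).trans ?_
      rw [List.length_map, List.length_permutations, List.length_splitLengths, List.length_map]
      have : p.2.1.length = C + 1 := p.2.2
      rw [this]
    · rw [Finset.card_product, Finset.card_univ, card_vector, Fintype.card_fin]
      exact Nat.mul_le_mul_right _ (Nat.mul_le_mul_right _ (card_SS n))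
  refine le_trans ?_ hT
  apply Finset.card_le_card_of_injOn (fun w : List.Vector A n => w.1)
  · intro w hw
    have hw := Finset.mem_filter.mp (Finset.mem_coe.mp hw)
    obtain ⟨B, B', h1, h2, h3, h4⟩ := hw.2
    have hlen : B'.flatten.length = n := by
      rw [h3.flatten.length_eq, h2]
      exact w.2
    have hlenB : B'.length = C + 1 := by rw [h3.length_eq, h1]
    have hle : ∀ b ∈ B', b.length < n + 1 := by
      intro b hb
      have := (List.sublist_flatten_of_mem hb).length_le
      omega
    rw [Finset.mem_coe, Finset.mem_biUnion]
    refine ⟨(⟨B'.flatten, hlen⟩, ⟨B'.map (fun b => Fin.ofNat (n + 1) b.length), by simpa using hlenB⟩),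
      ?_, ?_⟩
    · rw [Finset.mem_product, Finset.mem_filter]
      exact ⟨⟨Finset.mem_univ _, h4⟩, Finset.mem_univ _⟩
    · rw [List.mem_toFinset, List.mem_map]
      refine ⟨B, ?_, h2⟩
      rw [List.mem_permutations]
      have e : (B'.map (fun b => Fin.ofNat (n + 1) b.length)).map Fin.val = B'.map List.length := by
        rw [List.map_map]
        apply List.map_congr_left
        intro b hb
        simp only [Function.comp, Fin.ofNat]
        exact Nat.mod_eq_of_lt (hle b hb)
      show B.Perm ((List.map Fin.val (List.map (fun b => Fin.ofNat (n + 1) b.length) B')).splitLengths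
        B'.flatten)
      rw [e, splitLengths_self]
      exact h3.symm
  · intro w _ w' _ hww
    exact Subtype.ext hww

end counting

/-- The letters which occur an odd number of times. -/
def oddLetters {k : ℕ} (u : List (Fin k)) : Finset (Fin k) :=
  Finset.univ.filter (fun a => Odd (u.count a))

theorem oddLetters_card_le {k : ℕ} (u : List (Fin k)) : (oddLetters u).card ≤ k := by
  calc _ ≤ (Finset.univ : Finset (Fin k)).card := Finset.card_filter_le _ _
    _ = k := by simp

theorem oddLetters_parity {k : ℕ} (u : List (Fin k)) :
    Odd u.length ↔ Odd (oddLetters u).card := by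
  have h := Finset.odd_sum_iff_odd_card_odd (s := (Finset.univ : Finset (Fin k)))
    (fun a => u.count a)
  have h2 : ∑ a : Fin k, u.count a = u.length := by
    rw [← List.sum_toFinset_count_eq_length u]
    symm
    apply Finset.sum_subset (Finset.subset_univ _)
    intro a _ ha
    rw [List.mem_toFinset] at ha
    exact List.count_eq_zero.mpr ha
  rw [h2] at h
  exact h

open Classical in
theorem card_even {k m : ℕ} (hk : 0 < k) (hpar : m % 2 = k % 2) :
    k ^ m ≤ (Finset.univ.filter (fun w : List.Vector (Fin k) (m + k) =>
      IsEven w.1)).card := by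
  let pad : List (Fin k) → List (Fin k) := fun u =>
    (oddLetters u).toList ++ List.replicate (k - (oddLetters u).card) ⟨0, hk⟩
  have hpad : ∀ u, (pad u).length = k := by
    intro u
    simp only [pad, List.length_append, Finset.length_toList, List.length_replicate]
    have := oddLetters_card_le u
    omega
  let f : List.Vector (Fin k) m → List.Vector (Fin k) (m + k) := fun u =>
    ⟨u.1 ++ pad u.1, by rw [List.length_append, hpad]; congr 1; exact u.2⟩
  have hcard : k ^ m = (Finset.univ : Finset (List.Vector (Fin k) m)).card := by
    rw [Finset.card_univ, card_vector, Fintype.card_fin]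
  rw [hcard]
  apply Finset.card_le_card_of_injOn f
  · intro u _
    rw [Finset.mem_coe, Finset.mem_filter]
    refine ⟨Finset.mem_univ _, ?_⟩
    intro a
    show Even ((u.1 ++ pad u.1).count a)
    have hu : u.1.length = m := u.2
    have hp := oddLetters_parity u.1
    rw [hu] at hp
    have hle := oddLetters_card_le u.1
    have heven : Even (k - (oddLetters u.1).card) := by
      rw [Nat.even_iff]
      rcases Nat.even_or_odd m with hm | hm
      · have h1 : ¬ Odd (oddLetters u.1).card := fun h => (Nat.not_odd_iff_even.mpr hm) (hp.mpr h)
        rw [Nat.odd_iff] at h1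
        rw [Nat.even_iff] at hm
        omega
      · have h1 := hp.mp hm
        rw [Nat.odd_iff] at h1 hm
        omega
    simp only [pad, List.count_append, List.count_replicate]
    have hcount : (oddLetters u.1).toList.count a = if a ∈ oddLetters u.1 then 1 else 0 := by
      by_cases h : a ∈ oddLetters u.1
      · rw [if_pos h]
        exact List.count_eq_one_of_mem (Finset.nodup_toList _) (Finset.mem_toList.mpr h)
      · rw [if_neg h]
        exact List.count_eq_zero.mpr (fun h2 => h (Finset.mem_toList.mp h2))
    rw [hcount, ← Nat.add_assoc]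
    apply Even.add
    · by_cases h : a ∈ oddLetters u.1
      · rw [if_pos h]
        have : Odd (u.1.count a) := (Finset.mem_filter.mp h).2
        exact this.add_one
      · rw [if_neg h, Nat.add_zero]
        by_contra h2
        rw [Nat.not_even_iff_odd] at h2
        exact h (Finset.mem_filter.mpr ⟨Finset.mem_univ _, h2⟩)
    · split_ifs
      · exact heven
      · exact Even.zero
  · intro u _ v _ huv
    have h : u.1 ++ pad u.1 = v.1 ++ pad v.1 := congrArg Subtype.val huv
    apply Subtype.ext
    exact (List.append_inj h (u.2.trans v.2.symm)).1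

theorem growth (k C : ℕ) (hk : 5 ≤ k) : ∃ N, k ≤ N ∧
    (2 ^ (2 * N) * k ^ N) * (2 * N + 1) ^ (C + 1) * (C + 1).factorial < k ^ (2 * N - k) := by
  have hr : (1 : ℝ) < (k : ℝ) / 4 := by
    have : (5 : ℝ) ≤ k := by exact_mod_cast hk
    linarith
  set D : ℝ := ((C + 1).factorial : ℝ) * (k : ℝ) ^ k * 3 ^ (C + 1) with hD
  have hkpos : (0 : ℝ) < k := by
    have : (5 : ℝ) ≤ k := by exact_mod_cast hk
    linarith
  have hDpos : 0 < D := by positivity
  have h1 := tendsto_pow_const_div_const_pow_of_one_lt (C + 1) hr
  have h2 := (h1.eventually (gt_mem_nhds (show (0 : ℝ) < 1 / D by positivity))).and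
    (Filter.eventually_ge_atTop k)
  obtain ⟨N, hN, hkN⟩ := h2.exists
  refine ⟨N, hkN, ?_⟩
  have hN1 : 1 ≤ N := by omega
  have hpow : (0 : ℝ) < ((k : ℝ) / 4) ^ N := by positivity
  rw [div_lt_div_iff₀ hpow hDpos, one_mul] at hN
  -- `N ^ (C+1) * D < (k/4)^N`
  have h3 : (N : ℝ) ^ (C + 1) * D * 4 ^ N < (k : ℝ) ^ N := by
    have h4 : ((k : ℝ) / 4) ^ N * 4 ^ N = (k : ℝ) ^ N := by
      rw [← mul_pow]
      congr 1
      ring
    rw [← h4]
    exact mul_lt_mul_of_pos_right hN (by positivity)
  have h5 : (((2 ^ (2 * N) * k ^ N) * (2 * N + 1) ^ (C + 1) * (C + 1).factorial : ℕ) : ℝ) *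
      (k : ℝ) ^ k < ((k ^ (2 * N - k) : ℕ) : ℝ) * (k : ℝ) ^ k := by
    push_cast
    have e1 : (k : ℝ) ^ (2 * N - k) * (k : ℝ) ^ k = (k : ℝ) ^ N * (k : ℝ) ^ N := by
      rw [← pow_add, ← pow_add]
      congr 1
      omega
    rw [e1]
    have e2 : (2 * (N : ℝ) + 1) ^ (C + 1) ≤ 3 ^ (C + 1) * (N : ℝ) ^ (C + 1) := by
      rw [← mul_pow]
      apply pow_le_pow_left₀ (by positivity)
      have : (1 : ℝ) ≤ N := by exact_mod_cast hN1
      linarith
    have e3 : (2 : ℝ) ^ (2 * N) = 4 ^ N := by
      rw [pow_mul]
      norm_num
    calc (2 : ℝ) ^ (2 * N) * (k : ℝ) ^ N * (2 * (N : ℝ) + 1) ^ (C + 1) *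
          ((C + 1).factorial : ℝ) * (k : ℝ) ^ k
        ≤ (2 : ℝ) ^ (2 * N) * (k : ℝ) ^ N * (3 ^ (C + 1) * (N : ℝ) ^ (C + 1)) *
          ((C + 1).factorial : ℝ) * (k : ℝ) ^ k := by gcongr
      _ = ((N : ℝ) ^ (C + 1) * D * 4 ^ N) * (k : ℝ) ^ N := by
          rw [e3, hD]
          ring
      _ < (k : ℝ) ^ N * (k : ℝ) ^ N := mul_lt_mul_of_pos_right h3 (by positivity)
  have h6 := lt_of_mul_lt_mul_right h5 (by positivity)
  exact_mod_cast h6

/-- **MP_df1ab4_co, Q1 (disproof).** For every `k ≥ 5` and every `C` there is an even `k`-ary word
`W` with cutting distance `c(W) > C`; in particular (`C = k`) some even `k`-ary word has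
`c(W) ≥ k + 1`. -/
theorem result (k : ℕ) (hk : 5 ≤ k) (C : ℕ) :
    ∃ W : List (Fin k), IsEven W ∧ C < cutDist W := by
  classical
  by_contra hcon
  push Not at hcon
  obtain ⟨N, hkN, hN⟩ := growth k C hk
  have h1 := card_even (k := k) (m := 2 * N - k) (by omega) (by omega)
  rw [show 2 * N - k + k = 2 * N by omega] at h1
  have h2 : (Finset.univ.filter (fun w : List.Vector (Fin k) (2 * N) => IsEven w.1)).card ≤
      (Finset.univ.filter (fun w : List.Vector (Fin k) (2 * N) => Cuttable w.1 C)).card := by
    apply Finset.card_le_card
    intro w hw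
    rw [Finset.mem_filter] at hw ⊢
    exact ⟨hw.1, cuttable_of_cutDist_le hw.2 (hcon w.1 hw.2)⟩
  have h3 := card_cut (A := Fin k) (2 * N) C
  rw [Fintype.card_fin, show 2 * N / 2 = N by omega] at h3
  omega

end Pool.Agent.Results.MP_df1ab4_co.CuttingUnbounded
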